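import Pool.Agent.Y644.JW.Fin

/-!
# The graph of a simple polytope has a spanning closed walk visiting every vertex once or twice

Proof. The graph of a simple `d`-polytope is `d`-regular and, by Balinski's theorem, `d`-connected.
So it is 1-tough: every component of `G - S` has at least `d` neighbours in `S`. By the
Jackson-Wormald conjecture (`MP_36ad0d_co` `JacksonWormald`) 1-tough graphs have closed spanning walks
which visit every vertex at most twice.

Parts of the Lean proof: improving edges of polytopes (helper85), Balinski's theorem and toughness
(helper845), trees (helper371), perfect matchings (helper344), Euler circuits (helper591).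
-/

set_option autoImplicit false

namespace Pool.Agent.Results.MP_1d72bc_co.ClosedTwoWalks

/-- The graph of the convex hull of `S` (used when all points of `S` are vertices): two points of `S`
are adjacent if the segment between them is an (exposed) face. -/
noncomputable def polytopeGraph {d : ℕ} (S : Finset (EuclideanSpace ℝ (Fin d))) : SimpleGraph S :=
  SimpleGraph.fromRel (fun x y : S =>
    IsExposed ℝ (convexHull ℝ (S : Set (EuclideanSpace ℝ (Fin d))))
      (segment ℝ (x : EuclideanSpace ℝ (Fin d)) (y : EuclideanSpace ℝ (Fin d))))

/-- the number of times the closed walk `p` visits `w` (the first and the last vertex of `p`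
count together once) -/
noncomputable def visits {V : Type} {G : SimpleGraph V} {v : V} (p : G.Walk v v) (w : V) : ℕ :=
  {i : Fin p.length | p.getVert (i + 1) = w}.ncard

/-- Let `P` be a simple `d`-polytope, `d ≥ 2`: the convex hull of a finite set `S` of points of
`ℝ^d`, with nonempty interior, all points of `S` being vertices, such that every vertex lies on exactly
`d` edges. Then the graph of `P` has a closed walk which visits every vertex once or twice. -/
theorem result (d : ℕ) (hd : 2 ≤ d) (S : Finset (EuclideanSpace ℝ (Fin d)))
    (hint : (interior (convexHull ℝ (S : Set (EuclideanSpace ℝ (Fin d))))).Nonempty)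
    (hext : ∀ s ∈ S, s ∈ Set.extremePoints ℝ
      (convexHull ℝ (S : Set (EuclideanSpace ℝ (Fin d)))))
    (hsimple : ∀ v : S, ((polytopeGraph S).neighborSet v).ncard = d) :
    ∃ (v : S) (p : (polytopeGraph S).Walk v v), ∀ w, 1 ≤ visits p w ∧ visits p w ≤ 2 :=
  Pool.Agent.Y644.JW.poly Pool.Agent.Y371.JW.cnt Pool.Agent.Y344.JW.Tut.tut
    Pool.Agent.Y591.JW.eul (Pool.Agent.Y845.JW.bal Pool.Agent.Y85.JW.imp)
    Pool.Agent.Y845.JW.tou d hd S hint hext hsimple

end Pool.Agent.Results.MP_1d72bc_co.ClosedTwoWalks
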